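import Mathlib

set_option autoImplicit false

namespace Pool.Agent.Results.MP_5e9fbd_co.FourVertices

open Finset

def ed : Fin 6 → Fin 4 × Fin 4 := ![(0, 1), (0, 2), (0, 3), (1, 2), (1, 3), (2, 3)]

def gr (s : Finset (Fin 6)) : SimpleGraph (Fin 4) where
  Adj a b := ∃ e ∈ s, ed e = (a, b) ∨ ed e = (b, a)
  symm := ⟨fun _ _ ⟨e, he, h⟩ => ⟨e, he, h.symm⟩⟩
  loopless := ⟨by
    rintro a ⟨e, -, h⟩
    revert a e
    decide⟩

instance (s : Finset (Fin 6)) : DecidableRel (gr s).Adj :=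
  fun a b => inferInstanceAs (Decidable (∃ e ∈ s, ed e = (a, b) ∨ ed e = (b, a)))

theorem gr_adj (s : Finset (Fin 6)) (e : Fin 6) : (gr s).Adj (ed e).1 (ed e).2 ↔ e ∈ s := by
  revert s e
  decide +kernel

theorem gr_inj : Function.Injective gr := by
  intro s t h
  ext e
  rw [← gr_adj, ← gr_adj, h]

theorem gr_inf (s t : Finset (Fin 6)) : gr s ⊓ gr t = gr (s ∩ t) := by
  ext a b
  rw [SimpleGraph.inf_adj]
  revert s t a b
  decide +kernel

theorem comp (s : Finset (Fin 6)) (h : 2 ≤ s.card) :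
    Nat.card (gr s).ConnectedComponent ≤ 2 := by
  rw [Nat.card_eq_fintype_card]
  revert s
  decide +kernel

/-- The bound fails for `n = 4`. -/
theorem result : ∃ (n : ℕ) (F : Finset (SimpleGraph (Fin n))), 1 ≤ n ∧
    (∀ G ∈ F, ∀ H ∈ F, Nat.card (G ⊓ H).ConnectedComponent ≤ 2) ∧
    ((n : ℝ) + 1) / 2 ^ n * 2 ^ (n.choose 2) < (F.card : ℝ) := by
  refine ⟨4, (univ.filter fun s : Finset (Fin 6) => 4 ≤ s.card).map ⟨gr, gr_inj⟩, by norm_num,
    ?_, ?_⟩
  · intro G hG H hH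
    obtain ⟨s, hs, rfl⟩ := Finset.mem_map.1 hG
    obtain ⟨t, ht, rfl⟩ := Finset.mem_map.1 hH
    show Nat.card (gr s ⊓ gr t).ConnectedComponent ≤ 2
    rw [gr_inf]
    apply comp
    have h1 := (Finset.mem_filter.1 hs).2
    have h2 := (Finset.mem_filter.1 ht).2
    have h3 := Finset.card_union_add_card_inter s t
    have h4 : (s ∪ t).card ≤ 6 := by simpa using Finset.card_le_univ (s ∪ t)
    omega
  · rw [Finset.card_map]
    have : (univ.filter fun s : Finset (Fin 6) => 4 ≤ s.card).card = 22 := by decide +kernel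
    rw [this]
    norm_num [Nat.choose]

end Pool.Agent.Results.MP_5e9fbd_co.FourVertices
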